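import Mathlib
import Pool.Agent.Lib.MP_d57abb_nt.MS.Ang

/-!
# JOB Dd: size classes and the approximate determinant

Let `v, w ∈ VS`, `s = √(nm v)/Y`, `s' = √(nm w)/Y`, `r = rr v`, `r' = rr w`.
`rr_facts`: `r = ⌈n s⌉₊`, so `(r - 1)/n < s ≤ r/n`, `1 ≤ r` (`nm v ≥ 1`), and `s ≤ S` (`nm v ≤ (S Y)²`) gives `r ≤ n S = R` (`R` is the natural number `2^(k+2) n`; `Nat.ceil_le`).  So `|s - r/n| ≤ 1/n`, `r/n ≤ S`.
`num`: with `δ = an w - an v`, `θ ≤ an v < θ + h`, `θ + l h ≤ an w < θ + (l+1) h`: `|δ - l h| < h`, and for `l < Lm`: `|δ| ≤ (Lm + 1) h ≤ 2^(k+6) P/Y²` (`Lm + 1 = 2^(k+5) b + 3 ≤ 2^(k+6) b`, as `b ≥ 2^13`) `≤ 1/(10 n)` (`hY`).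
`Dd`: by `dt_exp`, `dt v w = (Y²/√5) s s' q`, `q = e^(δ/2) - e^(-δ/2)`, `|q - δ| ≤ |δ|³` and `|q| ≤ 2 |δ|` for `|δ| ≤ 1` (`Real.exp_bound`, or `2 sinh x`: power series, `|sinh x - x| ≤ |x|³` for `|x| ≤ 1`).  `D r r' l = (Y²/√5)(r/n)(r'/n) l h` (`h Y² = P/b`).
`|dt - D| ≤ (Y²/√5) (|s s' - (r/n)(r'/n)| |q| + (r/n)(r'/n) |q - l h|) ≤ (Y²/√5) ((2 S/n) 2 |δ| + S² (|δ|³ + h))`; `|s s' - (r/n)(r'/n)| ≤ 2 S/n`.
First term: `≤ Y² (4 S/(2 n)) 2^(k+6) P/Y² ≤ 2^(2k+9) P/n` (`S = 2^(k+2)`, `√5 ≥ 2`).  Second: `S² Y² h/√5 ≤ 2^(2k+4) P/b`, `S² Y² |δ|³ ≤ 2^(2k+4) 2^(3k+18) P³/Y⁴ ≤ 1` (`hY`).  Sum `≤ Del`.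
-/

open Finset

namespace Pool.Agent.Lib.MP_d57abb_nt.MS

open Pool.Agent.Lib.MP_d57abb_nt Pool.Agent.Lib.MP_d57abb_nt.TA

theorem rr_facts (d : Dt) (v : ℤ × ℤ) (hv : v ∈ d.VS) :
    (1 ≤ v.1 ∧ 0 ≤ v.2) ∧ 1 ≤ d.rr v ∧ d.rr v ≤ d.R ∧ √(nm v : ℝ) / d.Y ≤ (d.rr v : ℝ) / d.n ∧
      (d.rr v : ℝ) / d.n ≤ √(nm v : ℝ) / d.Y + 1 / d.n ∧ (d.rr v : ℝ) / d.n ≤ d.S := by
  unfold Dt.VS at hv
  obtain ⟨⟨⟨h1, -⟩, ⟨h2, -⟩⟩, -, h3⟩ := mem_VV.1 hv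
  have hn : (0 : ℝ) < d.n := by exact_mod_cast d.n_pos
  have hY := d.Y_pos
  have hN := nm_ge_one v h1 h2
  have hS : (0 : ℝ) < d.S := by
    unfold Dt.S
    positivity
  have hsq : √(nm v : ℝ) ≤ d.S * d.Y := by
    rw [← Real.sqrt_sq (by positivity : (0 : ℝ) ≤ d.S * d.Y)]
    exact Real.sqrt_le_sqrt h3
  have hs0 : 0 < √(nm v : ℝ) := Real.sqrt_pos.2 (by linarith)
  obtain ⟨x, hx⟩ : ∃ x : ℝ, x = (d.n : ℝ) * √(nm v : ℝ) / d.Y := ⟨_, rfl⟩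
  have hx0 : 0 < x := by
    rw [hx]
    positivity
  have hr : d.rr v = ⌈x⌉₊ := by
    unfold Dt.rr
    rw [hx]
  have e1 : x ≤ (d.rr v : ℝ) := by
    rw [hr]
    exact Nat.le_ceil x
  have e2 : (d.rr v : ℝ) < x + 1 := by
    rw [hr]
    exact Nat.ceil_lt_add_one hx0.le
  have e3 : d.rr v ≤ d.R := by
    rw [hr]
    refine Nat.ceil_le.2 ?_
    rw [hx, div_le_iff₀ hY]
    unfold Dt.R
    unfold Dt.S at hsq
    push_cast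
    calc (d.n : ℝ) * √(nm v : ℝ) ≤ d.n * (2 ^ (d.k + 2) * d.Y) := mul_le_mul_of_nonneg_left hsq hn.le
      _ = 2 ^ (d.k + 2) * d.n * d.Y := by ring
  have e4 : x = d.n * (√(nm v : ℝ) / d.Y) := by
    rw [hx]
    ring
  refine ⟨⟨h1, h2⟩, ?_, e3, ?_, ?_, ?_⟩
  · rw [hr]
    exact Nat.one_le_ceil_iff.2 hx0
  · rw [le_div_iff₀ hn, mul_comm, ← e4]
    exact e1
  · rw [div_le_iff₀ hn, add_mul, one_div, inv_mul_cancel₀ hn.ne', mul_comm _ (d.n : ℝ), ← e4]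
    exact e2.le
  · rw [div_le_iff₀ hn]
    have h5 : ((d.rr v : ℕ) : ℝ) ≤ (d.R : ℝ) := by exact_mod_cast e3
    refine h5.trans (le_of_eq ?_)
    unfold Dt.R Dt.S
    push_cast
    ring

/-- the numerical consequences of `hY` -/
private theorem Dd_num (d : Dt) :
    (2 : ℝ) ^ (d.k + 6) * d.P / d.Y ^ 2 ≤ 1 / (10 * d.n) ∧ d.h ≤ 2 ^ (d.k + 6) * d.P / d.Y ^ 2 ∧
      (d.Lm : ℝ) * d.h ≤ 2 ^ (d.k + 6) * d.P / d.Y ^ 2 ∧
      (2 : ℝ) ^ (5 * d.k + 22) * (d.P : ℝ) ^ 3 ≤ d.Y ^ 4 := by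
  have hn : (1 : ℝ) ≤ d.n := by exact_mod_cast d.n_pos
  have hb : (1 : ℝ) ≤ d.b := by exact_mod_cast d.b_pos
  have hP : (1 : ℝ) ≤ d.P := by
    have := d.hP
    exact_mod_cast (by omega : 1 ≤ d.P)
  have hY0 := d.Y_pos
  have hY1 : (1 : ℝ) ≤ d.Y := by
    refine le_trans ?_ d.Y_ge
    exact one_le_pow₀ (by norm_num)
  have hY := d.hY
  have hP3 : (d.P : ℝ) ≤ (d.P : ℝ) ^ 3 := le_self_pow₀ hP (by norm_num)
  have hP1 : (1 : ℝ) ≤ (d.P : ℝ) ^ 3 := one_le_pow₀ hP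
  have hk : (1 : ℝ) ≤ 2 ^ d.k := one_le_pow₀ (by norm_num)
  have a1 : (2 : ℝ) ^ (d.k + 6) * d.P * (10 * d.n) ≤ d.Y ^ 2 := by
    have h1 : (2 : ℝ) ^ (d.k + 6) * d.P * (10 * d.n) ≤ (2 : ℝ) ^ (5 * d.k + 30) * d.n * d.b * (d.P : ℝ) ^ 3 := by
      have h2 : (2 : ℝ) ^ (d.k + 6) * 10 ≤ (2 : ℝ) ^ (5 * d.k + 30) := by
        calc (2 : ℝ) ^ (d.k + 6) * 10 ≤ (2 : ℝ) ^ (d.k + 6) * 2 ^ 4 :=
              mul_le_mul_of_nonneg_left (by norm_num) (by positivity)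
          _ = (2 : ℝ) ^ (d.k + 10) := by rw [← pow_add]
          _ ≤ (2 : ℝ) ^ (5 * d.k + 30) := pow_le_pow_right₀ (by norm_num) (by omega)
      calc (2 : ℝ) ^ (d.k + 6) * d.P * (10 * d.n) = ((2 : ℝ) ^ (d.k + 6) * 10) * d.n * 1 * d.P := by ring
        _ ≤ (2 : ℝ) ^ (5 * d.k + 30) * d.n * d.b * (d.P : ℝ) ^ 3 := by gcongr
    refine (h1.trans hY).trans ?_
    exact le_self_pow₀ hY1 (by norm_num)
  have a2 : (d.P : ℝ) / (d.b * d.Y ^ 2) ≤ d.P / d.Y ^ 2 := by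
    refine div_le_div_of_nonneg_left (by linarith) (by positivity) ?_
    exact le_mul_of_one_le_left (by positivity) hb
  have hh : d.h ≤ d.P / d.Y ^ 2 := a2
  have a3 : (d.P : ℝ) / d.Y ^ 2 ≤ 2 ^ (d.k + 6) * d.P / d.Y ^ 2 := by
    refine div_le_div_of_nonneg_right ?_ (by positivity)
    exact le_mul_of_one_le_left (by linarith) (one_le_pow₀ (by norm_num))
  refine ⟨?_, hh.trans a3, ?_, ?_⟩
  · rw [div_le_div_iff₀ (by positivity) (by positivity), one_mul]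
    exact a1
  · have h1 : (d.Lm : ℝ) ≤ 2 ^ (d.k + 6) * d.b := by
      unfold Dt.Lm
      push_cast
      have h2 : (2 : ℝ) ^ (d.k + 6) = 2 ^ (d.k + 5) * 2 := by rw [← pow_succ]
      have h3 : (2 : ℝ) ≤ 2 ^ (d.k + 5) * d.b := by
        have h4 : (2 : ℝ) ≤ 2 ^ (d.k + 5) := by
          calc (2 : ℝ) = 2 ^ 1 := (pow_one 2).symm
            _ ≤ 2 ^ (d.k + 5) := pow_le_pow_right₀ (by norm_num) (by omega)
        nlinarith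
      rw [h2]
      linarith
    have h2 : (2 : ℝ) ^ (d.k + 6) * d.b * d.h = 2 ^ (d.k + 6) * d.P / d.Y ^ 2 := by
      unfold Dt.h
      field_simp
    rw [← h2]
    exact mul_le_mul_of_nonneg_right h1 d.h_pos.le
  · have h1 : (2 : ℝ) ^ (5 * d.k + 22) * (d.P : ℝ) ^ 3 ≤ (2 : ℝ) ^ (5 * d.k + 30) * d.n * d.b * (d.P : ℝ) ^ 3 := by
      calc (2 : ℝ) ^ (5 * d.k + 22) * (d.P : ℝ) ^ 3 = (2 : ℝ) ^ (5 * d.k + 22) * 1 * 1 * (d.P : ℝ) ^ 3 := by ring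
        _ ≤ (2 : ℝ) ^ (5 * d.k + 30) * d.n * d.b * (d.P : ℝ) ^ 3 := by
          have h2 : (2 : ℝ) ^ (5 * d.k + 22) ≤ (2 : ℝ) ^ (5 * d.k + 30) := pow_le_pow_right₀ (by norm_num) (by omega)
          gcongr
    refine (h1.trans hY).trans ?_
    exact le_self_pow₀ hY1 (by norm_num)

theorem del_facts (d : Dt) (θ : ℝ) (l : ℕ) (hl : l < d.Lm) (v w : ℤ × ℤ) (hv : v ∈ d.wd θ)
    (hw : w ∈ d.wd (θ + l * d.h)) :
    |an w - an v - l * d.h| ≤ d.h ∧ |an w - an v| ≤ 2 ^ (d.k + 6) * d.P / d.Y ^ 2 ∧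
      |an w - an v| ≤ 1 / (10 * d.n) ∧ d.h ≤ 1 / (10 * d.n) ∧ |an v - θ| ≤ 1 / (10 * d.n) ∧ |an w - θ| ≤ 1 / (5 * d.n) := by
  obtain ⟨n1, n2, n3, -⟩ := Dd_num d
  unfold Dt.wd at hv hw
  obtain ⟨-, v1, v2⟩ := mem_wn.1 hv
  obtain ⟨-, w1, w2⟩ := mem_wn.1 hw
  have hh := d.h_pos
  have hn : (0 : ℝ) < d.n := by exact_mod_cast d.n_pos
  have hl0 : (0 : ℝ) ≤ l := Nat.cast_nonneg _
  have hl1 : (l : ℝ) + 1 ≤ d.Lm := by exact_mod_cast hl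
  have hlh : 0 ≤ l * d.h := by positivity
  have a1 : |an w - an v - l * d.h| ≤ d.h := by
    rw [abs_le]
    constructor <;> linarith
  have a2 : |an w - an v| ≤ d.Lm * d.h := by
    have h1 : ((l : ℝ) + 1) * d.h ≤ d.Lm * d.h := mul_le_mul_of_nonneg_right hl1 hh.le
    rw [abs_le]
    constructor <;> linarith
  have a3 : |an w - an v| ≤ 2 ^ (d.k + 6) * d.P / d.Y ^ 2 := a2.trans n3
  have a4 : |an w - an v| ≤ 1 / (10 * d.n) := a3.trans n1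
  have a5 : d.h ≤ 1 / (10 * d.n) := n2.trans n1
  have a6 : |an v - θ| ≤ 1 / (10 * d.n) := by
    refine le_trans ?_ a5
    rw [abs_le]
    constructor <;> linarith
  refine ⟨a1, a3, a4, a5, a6, ?_⟩
  have h1 : an w - θ = (an w - an v) + (an v - θ) := by ring
  rw [h1]
  refine (abs_add_le _ _).trans ((add_le_add a4 a6).trans (le_of_eq ?_))
  field_simp
  norm_num

/-- the hyperbolic sine -/
private theorem Dd_sinh (δ : ℝ) (h : |δ| ≤ 1) :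
    |Real.exp (δ / 2) - Real.exp (-(δ / 2)) - δ| ≤ |δ| ^ 3 ∧
      |Real.exp (δ / 2) - Real.exp (-(δ / 2))| ≤ 2 * |δ| := by
  have hx : |δ / 2| ≤ 1 := by
    rw [abs_div, abs_two]
    linarith
  have hx' : |-(δ / 2)| ≤ 1 := by
    rw [abs_neg]
    exact hx
  have e1 := Real.exp_bound hx (n := 3) (by norm_num)
  have e2 := Real.exp_bound hx' (n := 3) (by norm_num)
  have f1 : ∑ m ∈ range 3, (δ / 2) ^ m / (m.factorial : ℝ) = 1 + δ / 2 + (δ / 2) ^ 2 / 2 := by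
    simp [Finset.sum_range_succ, Nat.factorial]
  have f2 : ∑ m ∈ range 3, (-(δ / 2)) ^ m / (m.factorial : ℝ) = 1 - δ / 2 + (δ / 2) ^ 2 / 2 := by
    simp [Finset.sum_range_succ, Nat.factorial]
    ring
  rw [f1] at e1
  rw [f2, abs_neg] at e2
  have g : |δ / 2| ^ 3 * ((Nat.succ 3 : ℕ) / ((Nat.factorial 3 : ℕ) * ((3 : ℕ) : ℝ))) ≤ |δ| ^ 3 / 2 := by
    have g1 : ((Nat.succ 3 : ℕ) : ℝ) / ((Nat.factorial 3 : ℕ) * ((3 : ℕ) : ℝ)) = 2 / 9 := by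
      norm_num [Nat.factorial]
    rw [g1, abs_div, abs_two, div_pow]
    have g2 : 0 ≤ |δ| ^ 3 := by positivity
    linarith
  have h1 := abs_le.1 (e1.trans g)
  have h2 := abs_le.1 (e2.trans g)
  have main : |Real.exp (δ / 2) - Real.exp (-(δ / 2)) - δ| ≤ |δ| ^ 3 := by
    rw [abs_le]
    constructor <;> linarith [h1.1, h1.2, h2.1, h2.2]
  refine ⟨main, ?_⟩
  have h3 : |δ| ^ 3 ≤ |δ| := by
    calc |δ| ^ 3 = |δ| * |δ| ^ 2 := by ring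
      _ ≤ |δ| * 1 := mul_le_mul_of_nonneg_left (pow_le_one₀ (abs_nonneg _) h) (abs_nonneg _)
      _ = |δ| := mul_one _
  have h4 : Real.exp (δ / 2) - Real.exp (-(δ / 2)) =
      (Real.exp (δ / 2) - Real.exp (-(δ / 2)) - δ) + δ := by ring
  rw [h4]
  refine (abs_add_le _ _).trans ?_
  linarith

theorem Dd (d : Dt) (θ : ℝ) (l : ℕ) (hl : l < d.Lm) (v w : ℤ × ℤ) (hv : v ∈ d.wd θ)
    (hw : w ∈ d.wd (θ + l * d.h)) :
    |(dt v w : ℝ) - d.D (d.rr v) (d.rr w) l| ≤ d.Del := by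
  obtain ⟨-, -, -, n4⟩ := Dd_num d
  obtain ⟨d1, d2, d3, d4, -, -⟩ := del_facts d θ l hl v w hv hw
  have hvV : v ∈ d.VS := (mem_wn.1 hv).1
  have hwV : w ∈ d.VS := (mem_wn.1 hw).1
  obtain ⟨⟨v1, v2⟩, -, -, r1, r2, r3⟩ := rr_facts d v hvV
  obtain ⟨⟨w1, w2⟩, -, -, r1', r2', r3'⟩ := rr_facts d w hwV
  have hdt := dt_exp v w v1 v2 w1 w2
  have hn : (1 : ℝ) ≤ d.n := by exact_mod_cast d.n_pos
  have hn0 : (0 : ℝ) < d.n := by linarith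
  have hb : (1 : ℝ) ≤ d.b := by exact_mod_cast d.b_pos
  have hb0 : (0 : ℝ) < d.b := by linarith
  have hP : (0 : ℝ) ≤ d.P := Nat.cast_nonneg _
  have hY := d.Y_pos
  have hh := d.h_pos
  obtain ⟨δ, hδ⟩ : ∃ δ : ℝ, δ = an w - an v := ⟨_, rfl⟩
  rw [← hδ] at d1 d2 d3 hdt
  obtain ⟨q, hq⟩ : ∃ q : ℝ, q = Real.exp (δ / 2) - Real.exp (-(δ / 2)) := ⟨_, rfl⟩
  rw [← hq] at hdt
  have hδ1 : |δ| ≤ 1 := by
    refine d3.trans ?_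
    rw [div_le_one (by positivity)]
    linarith
  obtain ⟨q1, q2⟩ := Dd_sinh δ hδ1
  rw [← hq] at q1 q2
  obtain ⟨s, hs⟩ : ∃ s : ℝ, s = √(nm v : ℝ) / d.Y := ⟨_, rfl⟩
  obtain ⟨s', hs'⟩ : ∃ s' : ℝ, s' = √(nm w : ℝ) / d.Y := ⟨_, rfl⟩
  obtain ⟨a, ha⟩ : ∃ a : ℝ, a = (d.rr v : ℝ) / d.n := ⟨_, rfl⟩
  obtain ⟨a', ha'⟩ : ∃ a' : ℝ, a' = (d.rr w : ℝ) / d.n := ⟨_, rfl⟩
  have hs0 : 0 ≤ s := by
    rw [hs]
    positivity
  have hs0' : 0 ≤ s' := by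
    rw [hs']
    positivity
  rw [← hs, ← ha] at r1 r2
  rw [← hs', ← ha'] at r1' r2'
  rw [← ha] at r3
  rw [← ha'] at r3'
  have hS : 0 < d.S := by
    unfold Dt.S
    positivity
  have ha0 : 0 ≤ a := hs0.trans r1
  have ha0' : 0 ≤ a' := hs0'.trans r1'
  have hv' : √(nm v : ℝ) = d.Y * s := by
    rw [hs]
    field_simp
  have hw' : √(nm w : ℝ) = d.Y * s' := by
    rw [hs']
    field_simp
  have h5 : (2 : ℝ) ≤ √5 := by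
    rw [show (2 : ℝ) = √(2 ^ 2) by rw [Real.sqrt_sq (by norm_num)]]
    exact Real.sqrt_le_sqrt (by norm_num)
  have h50 : (0 : ℝ) < √5 := by linarith
  have hD : d.D (d.rr v) (d.rr w) l = d.Y ^ 2 / √5 * (a * a' * (l * d.h)) := by
    unfold Dt.D Dt.h
    rw [ha, ha']
    field_simp
  have hdt' : (dt v w : ℝ) = d.Y ^ 2 / √5 * (s * s' * q) := by
    rw [hdt, hv', hw']
    ring
  have hdiff : (dt v w : ℝ) - d.D (d.rr v) (d.rr w) l =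
      d.Y ^ 2 / √5 * ((s * s' - a * a') * q + a * a' * (q - l * d.h)) := by
    rw [hD, hdt']
    ring
  rw [hdiff, abs_mul, abs_of_pos (by positivity : 0 < d.Y ^ 2 / √5)]
  have b1 : |s * s' - a * a'| ≤ 2 * d.S / d.n := by
    have c1 : s * s' - a * a' = -(s * (a' - s') + a' * (a - s)) := by ring
    rw [c1, abs_neg, abs_of_nonneg (add_nonneg (mul_nonneg hs0 (by linarith)) (mul_nonneg ha0' (by linarith)))]
    have c2 : s * (a' - s') ≤ d.S * (1 / d.n) :=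
      mul_le_mul (r1.trans r3) (by linarith) (by linarith) hS.le
    have c3 : a' * (a - s) ≤ d.S * (1 / d.n) := mul_le_mul r3' (by linarith) (by linarith) hS.le
    calc s * (a' - s') + a' * (a - s) ≤ d.S * (1 / d.n) + d.S * (1 / d.n) := add_le_add c2 c3
      _ = 2 * d.S / d.n := by ring
  have b2 : |q - l * d.h| ≤ |δ| ^ 3 + d.h := by
    have c1 : q - l * d.h = (q - δ) + (δ - l * d.h) := by ring
    rw [c1]
    exact (abs_add_le _ _).trans (add_le_add q1 d1)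
  have b3 : a * a' ≤ d.S ^ 2 := by
    rw [sq]
    exact mul_le_mul r3 r3' ha0' hS.le
  have b4 : |(s * s' - a * a') * q + a * a' * (q - l * d.h)| ≤
      2 * d.S / d.n * (2 * |δ|) + d.S ^ 2 * (|δ| ^ 3 + d.h) := by
    refine (abs_add_le _ _).trans ?_
    rw [abs_mul, abs_mul, abs_of_nonneg (mul_nonneg ha0 ha0')]
    exact add_le_add (mul_le_mul b1 q2 (abs_nonneg _) (by positivity))
      (mul_le_mul b3 b2 (abs_nonneg _) (by positivity))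
  refine (mul_le_mul_of_nonneg_left b4 (by positivity)).trans ?_
  have hY2 : 0 < d.Y ^ 2 := by positivity
  have g1 : d.Y ^ 2 / √5 ≤ d.Y ^ 2 / 2 := div_le_div_of_nonneg_left (by positivity) (by norm_num) h5
  refine (mul_le_mul_of_nonneg_right g1 (by positivity)).trans ?_
  have hSk : d.S = 2 ^ (d.k + 2) := rfl
  have p1 : d.Y ^ 2 / 2 * (2 * d.S / d.n * (2 * |δ|)) ≤ 2 ^ (2 * d.k + 10) * ((d.P : ℝ) / d.n) := by
    calc d.Y ^ 2 / 2 * (2 * d.S / d.n * (2 * |δ|)) = 2 * d.S / d.n * (d.Y ^ 2 * |δ|) := by ring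
      _ ≤ 2 * d.S / d.n * (d.Y ^ 2 * (2 ^ (d.k + 6) * d.P / d.Y ^ 2)) := by
          refine mul_le_mul_of_nonneg_left ?_ (by positivity)
          exact mul_le_mul_of_nonneg_left d2 hY2.le
      _ = 2 ^ (2 * d.k + 9) * ((d.P : ℝ) / d.n) := by
          rw [hSk]
          have c1 : (2 : ℝ) ^ (2 * d.k + 9) = 2 * 2 ^ (d.k + 2) * 2 ^ (d.k + 6) := by
            rw [mul_assoc, ← pow_add, ← pow_succ']
            congr 1
            ring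
          rw [c1]
          field_simp
      _ ≤ 2 ^ (2 * d.k + 10) * ((d.P : ℝ) / d.n) := by
          refine mul_le_mul_of_nonneg_right ?_ (by positivity)
          exact pow_le_pow_right₀ (by norm_num) (by omega)
  have p2 : d.Y ^ 2 / 2 * (d.S ^ 2 * d.h) ≤ 2 ^ (2 * d.k + 10) * ((d.P : ℝ) / d.b) := by
    have c1 : d.Y ^ 2 / 2 * (d.S ^ 2 * d.h) = d.S ^ 2 / 2 * ((d.P : ℝ) / d.b) := by
      unfold Dt.h
      field_simp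
    rw [c1]
    refine mul_le_mul_of_nonneg_right ?_ (by positivity)
    have c2 : d.S ^ 2 = 2 ^ (2 * d.k + 4) := by
      rw [hSk, ← pow_mul]
      congr 1
      ring
    have c3 : (2 : ℝ) ^ (2 * d.k + 4) ≤ 2 ^ (2 * d.k + 10) := pow_le_pow_right₀ (by norm_num) (by omega)
    have c4 : (0 : ℝ) < 2 ^ (2 * d.k + 4) := by positivity
    rw [c2]
    linarith
  have p3 : d.Y ^ 2 / 2 * (d.S ^ 2 * |δ| ^ 3) ≤ 1 := by
    have c1 : |δ| ^ 3 ≤ (2 ^ (d.k + 6) * d.P / d.Y ^ 2) ^ 3 := pow_le_pow_left₀ (abs_nonneg _) d2 3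
    have c2 : d.Y ^ 2 / 2 * (d.S ^ 2 * |δ| ^ 3) ≤ d.Y ^ 2 / 2 * (d.S ^ 2 * (2 ^ (d.k + 6) * d.P / d.Y ^ 2) ^ 3) :=
      mul_le_mul_of_nonneg_left (mul_le_mul_of_nonneg_left c1 (by positivity)) (by positivity)
    refine c2.trans ?_
    have c3 : d.Y ^ 2 / 2 * (d.S ^ 2 * (2 ^ (d.k + 6) * d.P / d.Y ^ 2) ^ 3) =
        (2 : ℝ) ^ (5 * d.k + 22) * (d.P : ℝ) ^ 3 / 2 / d.Y ^ 4 := by
      have c4 : (2 : ℝ) ^ (5 * d.k + 22) = (2 ^ (d.k + 2)) ^ 2 * (2 ^ (d.k + 6)) ^ 3 := by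
        rw [← pow_mul, ← pow_mul, ← pow_add]
        congr 1
        ring
      rw [hSk, c4]
      field_simp
    rw [c3, div_le_one (by positivity)]
    have c5 : 0 ≤ (2 : ℝ) ^ (5 * d.k + 22) * (d.P : ℝ) ^ 3 := by positivity
    linarith
  unfold Dt.Del
  calc d.Y ^ 2 / 2 * (2 * d.S / d.n * (2 * |δ|) + d.S ^ 2 * (|δ| ^ 3 + d.h)) =
      d.Y ^ 2 / 2 * (2 * d.S / d.n * (2 * |δ|)) + d.Y ^ 2 / 2 * (d.S ^ 2 * d.h) +
        d.Y ^ 2 / 2 * (d.S ^ 2 * |δ| ^ 3) := by ring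
    _ ≤ 2 ^ (2 * d.k + 10) * ((d.P : ℝ) / d.n) + 2 ^ (2 * d.k + 10) * ((d.P : ℝ) / d.b) + 1 :=
        add_le_add (add_le_add p1 p2) p3
    _ = 2 ^ (2 * d.k + 10) * ((d.P : ℝ) / d.n + (d.P : ℝ) / d.b) + 1 := by ring

end Pool.Agent.Lib.MP_d57abb_nt.MS
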