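import Mathlib
import Pool.Agent.Lib.MP_d57abb_nt.MS.Defs

/-!
# JOB Kap: the function `kap`

`kap θ = ((1 - be) e^(θ/2) + (al - 1) e^(-θ/2)) / √5`, `1 - be > 0`, `al - 1 > 0`, `(1 - be)(al - 1) = al - 1 - al be + be = 3 - 1 - 1 = 1`.
* `kap_ge`: arithmetic-geometric mean: `√5 kap θ ≥ 2 √((1 - be)(al - 1)) = 2`, i.e. `(√5 kap)² ≥ 4 (1 - be) (al - 1) e^0 = 4`, so `kap² ≥ 4/5`; `kap ≥ 4/5` too (`kap > 0`, `kap² ≥ 4/5 ≥ (4/5)²`).
* `kap_lip`: for `θ ∈ [-1, 2]` the derivative is `((1 - be) e^(θ/2) - (al - 1) e^(-θ/2)) / (2 √5)`, of absolute value `≤ (0.6185 · 2.7183 + 1.6185 · 1.6488)/(2 · 2.236) ≤ 0.98 ≤ 1`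
  (`0.618 < 1 - be < 0.6185`, `e^(θ/2) ≤ e`, `e^(-θ/2) ≤ e^(1/2) ≤ 1.6488`; the two terms have opposite signs, one may also use the maximum of the two, which is `≤ 1.7/4.47`); mean value theorem
  (`Convex.norm_image_sub_le_of_norm_deriv_le` on `Icc (-1) 2`), or directly with `|e^x - e^y| ≤ e^(max) |x - y|`.
* `kap_le`: for `θ ∈ [-1/10, 2]`: `kap θ ≤ 11/10`: for `θ ∈ [-1/10, 0]`: `kap θ ≤ kap 0 + 1/10 = 1 + 1/10` (`kap 0 = (al - be)/√5 = 1`); for `θ ∈ [0, 2]`: by convexity `≤ max (kap 0) (kap 2)`, or: with `u = e^(θ/2) ∈ [1, e]`,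
  `(1 - be) u + (al - 1)/u ≤ 1.1 √5` because the quadratic `(1 - be) u² - 1.1 √5 u + (al - 1)` is `≤ 0` at `u = 1` and `u = 2.7183` (values `≤ 0.6185 · 7.3892 - 2.4596 · 2.7183 + 1.6185 < 0`) and convex.
-/

open Finset

namespace Pool.Agent.Lib.MP_d57abb_nt.MS

open Pool.Agent.Lib.MP_d57abb_nt

private theorem Kap_sqrt5_pos : (0 : ℝ) < √5 := by
  have := sqrt5_lo
  linarith

private theorem Kap_prod : (1 - be) * (al - 1) = 1 := by
  have h1 := al_add_be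
  have h2 := al_mul_be
  linear_combination h1 - h2

private theorem Kap_exp_mul (x : ℝ) : Real.exp (x / 2) * Real.exp (-(x / 2)) = 1 := by
  rw [← Real.exp_add, add_neg_cancel, Real.exp_zero]

private theorem Kap_exp_sub (x y : ℝ) : Real.exp x - Real.exp y ≤ Real.exp x * (x - y) := by
  have h1 := Real.add_one_le_exp (y - x)
  have h2 : Real.exp x * Real.exp (y - x) = Real.exp y := by
    rw [← Real.exp_add]
    congr 1
    ring
  have h3 := Real.exp_pos x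
  nlinarith [mul_le_mul_of_nonneg_left h1 h3.le]

private theorem Kap_lip_aux (θ θ' : ℝ) (h1 : -1 ≤ θ) (h4 : θ' ≤ 2) (h : θ ≤ θ') :
    |kap θ - kap θ'| ≤ |θ - θ'| := by
  have h5 := Kap_sqrt5_pos
  have hb1 := be_lo
  have hb2 := be_hi
  have ha1 := al_lo
  have ha2 := al_hi
  have he := Real.exp_one_lt_d9
  have hs := sqrt5_lo
  have e1 : Real.exp (θ' / 2) - Real.exp (θ / 2) ≤ Real.exp (θ' / 2) * (θ' / 2 - θ / 2) :=
    Kap_exp_sub _ _
  have e2 : Real.exp (-(θ / 2)) - Real.exp (-(θ' / 2)) ≤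
      Real.exp (-(θ / 2)) * (-(θ / 2) - -(θ' / 2)) := Kap_exp_sub _ _
  have e3 : Real.exp (θ' / 2) ≤ Real.exp 1 := Real.exp_le_exp.mpr (by linarith)
  have e4 : Real.exp (-(θ / 2)) ≤ Real.exp 1 := Real.exp_le_exp.mpr (by linarith)
  have e5 : Real.exp (θ / 2) ≤ Real.exp (θ' / 2) := Real.exp_le_exp.mpr (by linarith)
  have e6 : Real.exp (-(θ' / 2)) ≤ Real.exp (-(θ / 2)) := Real.exp_le_exp.mpr (by linarith)
  have hd : 0 ≤ θ' - θ := by linarith
  have f1 : Real.exp (θ' / 2) - Real.exp (θ / 2) ≤ 1.36 * (θ' - θ) := by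
    have : Real.exp (θ' / 2) * (θ' / 2 - θ / 2) ≤ 2.72 * (θ' / 2 - θ / 2) :=
      mul_le_mul_of_nonneg_right (by linarith) (by linarith)
    linarith
  have f2 : Real.exp (-(θ / 2)) - Real.exp (-(θ' / 2)) ≤ 1.36 * (θ' - θ) := by
    have : Real.exp (-(θ / 2)) * (-(θ / 2) - -(θ' / 2)) ≤ 2.72 * (-(θ / 2) - -(θ' / 2)) :=
      mul_le_mul_of_nonneg_right (by linarith) (by linarith)
    linarith
  have g1 : (1 - be) * (Real.exp (θ' / 2) - Real.exp (θ / 2)) ≤ √5 * (θ' - θ) := by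
    calc (1 - be) * (Real.exp (θ' / 2) - Real.exp (θ / 2))
        ≤ 1 * (1.36 * (θ' - θ)) := mul_le_mul (by linarith) f1 (by linarith) (by norm_num)
      _ ≤ √5 * (θ' - θ) := by nlinarith
  have g2 : (al - 1) * (Real.exp (-(θ / 2)) - Real.exp (-(θ' / 2))) ≤ √5 * (θ' - θ) := by
    calc (al - 1) * (Real.exp (-(θ / 2)) - Real.exp (-(θ' / 2)))
        ≤ 1.62 * (1.36 * (θ' - θ)) := mul_le_mul (by linarith) f2 (by linarith) (by norm_num)
      _ ≤ √5 * (θ' - θ) := by nlinarith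
  have g3 : 0 ≤ (1 - be) * (Real.exp (θ' / 2) - Real.exp (θ / 2)) :=
    mul_nonneg (by linarith) (by linarith)
  have g4 : 0 ≤ (al - 1) * (Real.exp (-(θ / 2)) - Real.exp (-(θ' / 2))) :=
    mul_nonneg (by linarith) (by linarith)
  have k1 : kap θ - kap θ' = ((al - 1) * (Real.exp (-(θ / 2)) - Real.exp (-(θ' / 2))) -
      (1 - be) * (Real.exp (θ' / 2) - Real.exp (θ / 2))) / √5 := by
    unfold kap
    rw [← sub_div]
    congr 1
    ring
  have k2 : |θ - θ'| = θ' - θ := by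
    rw [abs_sub_comm, abs_of_nonneg hd]
  rw [k1, k2, abs_div, abs_of_pos h5, div_le_iff₀ h5, abs_le]
  constructor <;> nlinarith

theorem kap_pos (θ : ℝ) : 0 < kap θ := by
  unfold kap
  have h5 := Kap_sqrt5_pos
  have hb2 := be_hi
  have ha1 := al_lo
  have h1 : 0 < 1 - be := by linarith
  have h2 : 0 < al - 1 := by linarith
  have h3 := Real.exp_pos (θ / 2)
  have h4 := Real.exp_pos (-(θ / 2))
  positivity

theorem kap_ge (θ : ℝ) : 4 / 5 ≤ kap θ ∧ 4 / 5 ≤ kap θ ^ 2 := by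
  have h0 := kap_pos θ
  have hsq : 4 / 5 ≤ kap θ ^ 2 := by
    have h5 := sqrt5_sq
    have h6 := Kap_prod
    have h7 := Kap_exp_mul θ
    have h8 : kap θ ^ 2 = ((1 - be) * Real.exp (θ / 2) + (al - 1) * Real.exp (-(θ / 2))) ^ 2 / 5 := by
      unfold kap
      rw [div_pow, sq √5, h5]
    have h9 : ((1 - be) * Real.exp (θ / 2)) * ((al - 1) * Real.exp (-(θ / 2))) = 1 := by
      calc ((1 - be) * Real.exp (θ / 2)) * ((al - 1) * Real.exp (-(θ / 2)))
          = ((1 - be) * (al - 1)) * (Real.exp (θ / 2) * Real.exp (-(θ / 2))) := by ring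
        _ = 1 := by rw [h6, h7, one_mul]
    rw [h8]
    have h10 := sq_nonneg ((1 - be) * Real.exp (θ / 2) - (al - 1) * Real.exp (-(θ / 2)))
    have h11 : ((1 - be) * Real.exp (θ / 2) + (al - 1) * Real.exp (-(θ / 2))) ^ 2 =
        ((1 - be) * Real.exp (θ / 2) - (al - 1) * Real.exp (-(θ / 2))) ^ 2 +
          4 * (((1 - be) * Real.exp (θ / 2)) * ((al - 1) * Real.exp (-(θ / 2)))) := by ring
    rw [h11, h9]
    linarith
  refine ⟨?_, hsq⟩
  by_contra hcon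
  push Not at hcon
  have h1 : kap θ ^ 2 < (4 / 5) ^ 2 := by
    exact pow_lt_pow_left₀ hcon h0.le (by norm_num)
  norm_num at h1
  linarith

theorem kap_lip (θ θ' : ℝ) (h1 : -1 ≤ θ) (h2 : θ ≤ 2) (h3 : -1 ≤ θ') (h4 : θ' ≤ 2) :
    |kap θ - kap θ'| ≤ |θ - θ'| := by
  rcases le_total θ θ' with h | h
  · exact Kap_lip_aux θ θ' h1 h4 h
  · rw [abs_sub_comm (kap θ), abs_sub_comm θ]
    exact Kap_lip_aux θ' θ h3 h2 h

theorem kap_le (θ : ℝ) (h1 : -(1 / 10) ≤ θ) (h2 : θ ≤ 2) : kap θ ≤ 11 / 10 := by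
  have h5 := Kap_sqrt5_pos
  have hk0 : kap 0 = 1 := by
    unfold kap
    rw [zero_div, neg_zero, Real.exp_zero, mul_one, mul_one, div_eq_one_iff_eq h5.ne', ← al_sub_be]
    ring
  rcases le_total θ 0 with h | h
  · have h3 := kap_lip θ 0 (by linarith) h2 (by norm_num) (by norm_num)
    rw [hk0, sub_zero] at h3
    have h4 : |θ| ≤ 1 / 10 := abs_le.mpr ⟨h1, by linarith⟩
    have h6 := (abs_le.mp (h3.trans h4)).2
    linarith
  · have hb1 := be_lo
    have hb2 := be_hi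
    have ha1 := al_lo
    have ha2 := al_hi
    have he := Real.exp_one_lt_d9
    have hs := sqrt5_lo
    have h7 := Kap_exp_mul θ
    have hu1 : 1 ≤ Real.exp (θ / 2) := Real.one_le_exp (by linarith)
    have hu2 : Real.exp (θ / 2) ≤ Real.exp 1 := Real.exp_le_exp.mpr (by linarith)
    have hv := Real.exp_pos (-(θ / 2))
    unfold kap
    generalize Real.exp (θ / 2) = u at h7 hu1 hu2
    generalize Real.exp (-(θ / 2)) = v at h7 hv
    have hu3 : u ≤ 2.7183 := by linarith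
    have q1 : u ^ 2 ≤ 3.7183 * u - 2.7183 := by nlinarith
    have q2 : (1 - be) * u ^ 2 + (al - 1) ≤ 2.3 * u := by
      have q3 : (1 - be) * u ^ 2 ≤ (1 - be) * (3.7183 * u - 2.7183) :=
        mul_le_mul_of_nonneg_left q1 (by linarith)
      have q4 : (1 - be) * (3.7183 * u) ≤ 0.6185 * (3.7183 * u) :=
        mul_le_mul_of_nonneg_right (by linarith) (by positivity)
      nlinarith
    have q5 : (1 - be) * u + (al - 1) * v ≤ 2.3 := by
      have q6 := mul_le_mul_of_nonneg_right q2 hv.le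
      have q7 : ((1 - be) * u ^ 2 + (al - 1)) * v = (1 - be) * u * (u * v) + (al - 1) * v := by ring
      have q8 : 2.3 * u * v = 2.3 * (u * v) := by ring
      rw [q7, q8, h7] at q6
      linarith
    rw [div_le_iff₀ h5]
    linarith

end Pool.Agent.Lib.MP_d57abb_nt.MS
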