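import Mathlib
import Pool.Agent.Lib.MP_d57abb_nt.MS.Defs

/-!
# JOB Res: the residue condition

`dt v w = v.1 w.2 - w.1 v.2` (definition) is congruent to `c.1 c'.2 - c'.1 c.2` modulo `W` for `c = cls W v`, `c' = cls W w` (`Int.emod_emod_of_dvd`, `Int.ModEq`).  For an integer `m > 0` with `m.toNat = M`: `M % W = (m % W).toNat`, `M` is prime to `W` iff
`M % W` is (`Nat.coprime_mod_left_iff`-like: `Nat.Coprime` via `Nat.gcd_rec`/`Nat.gcd_mod`), and `M % 5 = (M % W) % 5` because `5 ∣ W` (`Nat.mod_mod_of_dvd`).  `KT.mem_NN`: `M ∈ NN W P ↔ (P/2 < M ∧ M ≤ P) ∧ M.Coprime W ∧ R5 M`, with the integer part `P / 2`: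
`P / 2 < M ↔ P < 2 M ↔ (P : ℝ)/2 < m` (`omega`).  If `P/2 < m` then `m > 0`.
-/

open Finset

namespace Pool.Agent.Lib.MP_d57abb_nt.MS

open Pool.Agent.Lib.MP_d57abb_nt Pool.Agent.Lib.MP_d57abb_nt.TA

private theorem res_cls (W : ℕ) (v w : ℤ × ℤ) :
    ((cls W v).1 * (cls W w).2 - (cls W w).1 * (cls W v).2) % (W : ℤ) = dt v w % (W : ℤ) := by
  have h1 : ∀ x : ℤ, x % (W : ℤ) ≡ x [ZMOD (W : ℤ)] := fun x => Int.mod_modEq x (W : ℤ)
  exact ((h1 v.1).mul (h1 w.2)).sub ((h1 w.1).mul (h1 v.2))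

theorem NN_iff (W P : ℕ) (hW : 0 < W) (h5 : 5 ∣ W) (v w : ℤ × ℤ) :
    (0 < dt v w ∧ (dt v w).toNat ∈ KT.NN W P) ↔
      ((P : ℝ) / 2 < (dt v w : ℝ) ∧ (dt v w : ℝ) ≤ P) ∧ chi W (cls W v) (cls W w) := by
  unfold chi
  rw [res_cls]
  rcases le_or_gt (dt v w) 0 with hm | hm
  · refine ⟨fun h => absurd h.1 (not_lt.mpr hm), fun h => ?_⟩
    exfalso
    have h1 : ((dt v w : ℤ) : ℝ) ≤ 0 := by exact_mod_cast hm
    have h2 : (0 : ℝ) ≤ (P : ℝ) := Nat.cast_nonneg P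
    have h3 := h.1.1
    linarith
  · obtain ⟨M, hM⟩ := Int.eq_ofNat_of_zero_le hm.le
    have e1 : (dt v w).toNat = M := by
      rw [hM]
      exact Int.toNat_natCast M
    have e2 : (dt v w % (W : ℤ)).toNat = M % W := by
      rw [hM, ← Int.natCast_mod]
      exact Int.toNat_natCast _
    have e3 : ((dt v w : ℤ) : ℝ) = (M : ℝ) := by
      rw [hM]
      exact Int.cast_natCast M
    have e4 : (M % W).Coprime W ↔ M.Coprime W := by
      unfold Nat.Coprime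
      rw [← Nat.gcd_rec, Nat.gcd_comm]
    have e5 : KT.R5 (M % W) ↔ KT.R5 M := by
      unfold KT.R5
      rw [Nat.mod_mod_of_dvd M h5]
    have e6 : (P : ℝ) / 2 < (M : ℝ) ↔ P / 2 < M := by
      rw [div_lt_iff₀ (by norm_num : (0 : ℝ) < 2)]
      constructor
      · intro h
        have h1 : P < M * 2 := by exact_mod_cast h
        omega
      · intro h
        have h1 : P < M * 2 := by omega
        exact_mod_cast h1
    rw [e1, e2, e3, e4, e5, e6, Nat.cast_le, KT.mem_NN]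
    exact ⟨fun h => h.2, fun h => ⟨hm, h⟩⟩

end Pool.Agent.Lib.MP_d57abb_nt.MS
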