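import Mathlib
import Pool.Agent.Lib.MP_d57abb_nt.MS.Ang

/-!
# JOB Sct: the number of primitive vectors in a thin sector

`sep`: if `v ≠ w` are primitive with `v.1, w.1 ≥ 1`, `v.2, w.2 ≥ 0`, norms `≤ X` (`X ≥ 1`), then `|an v - an w| ≥ 1/X`: `dt v w ≠ 0` (two primitive vectors of the quadrant with determinant `0` are equal), so `1 ≤ |dt v w|`;
by `dt_exp`, `|dt v w| = √(nm v) √(nm w) |e^(δ/2) - e^(-δ/2)|/√5 ≤ X |e^(δ/2) - e^(-δ/2)|/√5`, `δ = an w - an v`.  If `|δ| < 1/X ≤ 1`: `|e^(δ/2) - e^(-δ/2)| = 2 sinh (|δ|/2) ≤ 2 |δ|` (`e^x - e^(-x) ≤ 4 x` for `0 ≤ x ≤ 1/2`,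
e.g. `e^x ≤ 1 + 2 x` and `e^(-x) ≥ 1 - x`), so `1 ≤ X · 2 |δ|/√5 < 2/√5 < 1`, a contradiction.
`card_wn`: the map `v ↦ ⌊(an v - θ) X⌋₊` on `wn X θ h` is injective (same value implies `|an v - an w| < 1/X`) with values in `range (⌊h X⌋₊ + 1)`, so the number is at most `h X + 1`.  (If `X < 1` the set `VV X` is empty.)
-/

open Finset

namespace Pool.Agent.Lib.MP_d57abb_nt.MS

open Pool.Agent.Lib.MP_d57abb_nt Pool.Agent.Lib.MP_d57abb_nt.TA

private theorem Sct_dt_ne {v w : ℤ × ℤ} (hv : 1 ≤ v.1) (hw : 1 ≤ w.1) (hcv : IsCoprime v.1 v.2)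
    (hcw : IsCoprime w.1 w.2) (h : v ≠ w) : dt v w ≠ 0 := by
  intro h0
  apply h
  have h1 : v.1 * w.2 = w.1 * v.2 := by
    unfold dt at h0
    linarith
  have h2 : v.1 ∣ w.1 := by
    have h3 : v.1 ∣ v.2 * w.1 := ⟨w.2, by linarith⟩
    exact hcv.dvd_of_dvd_mul_left h3
  have h4 : w.1 ∣ v.1 := by
    have h5 : w.1 ∣ w.2 * v.1 := ⟨v.2, by linarith⟩
    exact hcw.dvd_of_dvd_mul_left h5
  have h6 : v.1 = w.1 := Int.dvd_antisymm (by linarith) (by linarith) h2 h4
  have h7 : v.2 = w.2 := by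
    rw [h6] at h1
    exact (mul_left_cancel₀ (show w.1 ≠ 0 by omega) h1).symm
  exact Prod.ext h6 h7

private theorem Sct_sinh (x : ℝ) (h0 : 0 ≤ x) (h1 : x ≤ 1 / 2) :
    Real.exp x - Real.exp (-x) ≤ 4 * x := by
  have e1 := Real.add_one_le_exp (-x)
  have e2 : Real.exp x * Real.exp (-x) = 1 := by
    rw [← Real.exp_add, add_neg_cancel, Real.exp_zero]
  have e3 := Real.exp_pos x
  have e4 : Real.exp x * (1 - x) ≤ 1 := by
    calc Real.exp x * (1 - x) ≤ Real.exp x * Real.exp (-x) :=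
          mul_le_mul_of_nonneg_left (by linarith) e3.le
      _ = 1 := e2
  have e5 : Real.exp x ≤ 1 + 2 * x := by
    by_contra hcon
    push Not at hcon
    have e6 : (1 + 2 * x) * (1 - x) < Real.exp x * (1 - x) :=
      mul_lt_mul_of_pos_right hcon (by linarith)
    nlinarith
  linarith

private theorem Sct_abs (δ : ℝ) (h : |δ| ≤ 1) :
    |Real.exp (δ / 2) - Real.exp (-(δ / 2))| ≤ 2 * |δ| := by
  rcases le_total 0 δ with h0 | h0
  · rw [abs_of_nonneg h0] at h ⊢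
    have h1 := Sct_sinh (δ / 2) (by linarith) (by linarith)
    have h2 : Real.exp (-(δ / 2)) ≤ Real.exp (δ / 2) := Real.exp_le_exp.mpr (by linarith)
    rw [abs_of_nonneg (by linarith)]
    linarith
  · rw [abs_of_nonpos h0] at h ⊢
    have h1 := Sct_sinh (-(δ / 2)) (by linarith) (by linarith)
    rw [neg_neg] at h1
    have h2 : Real.exp (δ / 2) ≤ Real.exp (-(δ / 2)) := Real.exp_le_exp.mpr (by linarith)
    rw [abs_of_nonpos (by linarith)]
    linarith

private theorem Sct_sep {X : ℝ} (hX : 1 ≤ X) {v w : ℤ × ℤ} (hv : v ∈ VV X) (hw : w ∈ VV X)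
    (h : v ≠ w) : 1 ≤ |an v - an w| * X := by
  by_contra hcon
  push Not at hcon
  rw [mem_VV] at hv hw
  obtain ⟨⟨⟨hv1, -⟩, hv2, -⟩, hcv, hnv⟩ := hv
  obtain ⟨⟨⟨hw1, -⟩, hw2, -⟩, hcw, hnw⟩ := hw
  have hX0 : 0 < X := by linarith
  have hd := Sct_dt_ne hv1 hw1 hcv hcw h
  have h1 : (1 : ℝ) ≤ |(dt v w : ℝ)| := by
    have := Int.one_le_abs hd
    exact_mod_cast this
  have hδ : |an w - an v| * X < 1 := by
    rw [abs_sub_comm]
    exact hcon
  have hδ1 : |an w - an v| ≤ 1 := by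
    have := abs_nonneg (an w - an v)
    nlinarith
  have h5 : (0 : ℝ) < √5 := by
    have := sqrt5_lo
    linarith
  rw [dt_exp v w hv1 hv2 hw1 hw2, abs_div, abs_mul, abs_mul, abs_of_nonneg (Real.sqrt_nonneg _),
    abs_of_nonneg (Real.sqrt_nonneg _), abs_of_pos h5] at h1
  have h2 : √(nm v : ℝ) * √(nm w : ℝ) ≤ X := by
    calc √(nm v : ℝ) * √(nm w : ℝ) ≤ √X * √X :=
          mul_le_mul (Real.sqrt_le_sqrt hnv) (Real.sqrt_le_sqrt hnw) (Real.sqrt_nonneg _)
            (Real.sqrt_nonneg _)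
      _ = X := Real.mul_self_sqrt hX0.le
  have h3 := Sct_abs (an w - an v) hδ1
  have h4 : √(nm v : ℝ) * √(nm w : ℝ) *
      |Real.exp ((an w - an v) / 2) - Real.exp (-((an w - an v) / 2))| ≤
      X * (2 * |an w - an v|) :=
    mul_le_mul h2 h3 (abs_nonneg _) hX0.le
  rw [le_div_iff₀ h5, one_mul] at h1
  have h6 := sqrt5_lo
  nlinarith

theorem card_wn (X θ h : ℝ) (hh : 0 ≤ h) (hX : 0 ≤ X) : ((wn X θ h).card : ℝ) ≤ h * X + 1 := by
  rcases lt_or_ge X 1 with h1 | h1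
  · have he : wn X θ h = ∅ := by
      rw [Finset.eq_empty_iff_forall_notMem]
      intro v hv
      rw [mem_wn, mem_VV] at hv
      obtain ⟨⟨⟨⟨hv1, hv2⟩, -⟩, -⟩, -⟩ := hv
      have h2 : ⌊X⌋ ≤ 0 := by
        have : ⌊X⌋ < 1 := Int.floor_lt.mpr (by exact_mod_cast h1)
        omega
      omega
    rw [he, Finset.card_empty, Nat.cast_zero]
    positivity
  · have hcard : (wn X θ h).card ≤ (range (⌊h * X⌋₊ + 1)).card := by
      refine Finset.card_le_card_of_injOn (fun v => ⌊(an v - θ) * X⌋₊) ?_ ?_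
      · intro v hv
        rw [Finset.mem_coe, mem_wn] at hv
        rw [Finset.mem_coe, Finset.mem_range]
        have h2 : (an v - θ) * X ≤ h * X :=
          mul_le_mul_of_nonneg_right (by linarith [hv.2.2]) hX
        exact Nat.lt_succ_of_le (Nat.floor_le_floor h2)
      · intro v hv w hw heq
        rw [Finset.mem_coe, mem_wn] at hv hw
        by_contra hne
        have h2 := Sct_sep h1 hv.1 hw.1 hne
        have heq' : ⌊(an v - θ) * X⌋₊ = ⌊(an w - θ) * X⌋₊ := heq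
        have h3 : 0 ≤ (an v - θ) * X := mul_nonneg (by linarith [hv.2.1]) hX
        have h4 : 0 ≤ (an w - θ) * X := mul_nonneg (by linarith [hw.2.1]) hX
        have h5 := Nat.floor_le h3
        have h6 := Nat.floor_le h4
        have h7 := Nat.lt_floor_add_one ((an v - θ) * X)
        have h8 := Nat.lt_floor_add_one ((an w - θ) * X)
        rw [heq'] at h5 h7
        have h9 : |an v - an w| * X < 1 := by
          have h10 : |an v - an w| * X = |(an v - θ) * X - (an w - θ) * X| := by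
            rw [← sub_mul, abs_mul, abs_of_nonneg hX]
            congr 2
            ring
          rw [h10, abs_lt]
          constructor <;> linarith
        linarith
    rw [Finset.card_range] at hcard
    calc ((wn X θ h).card : ℝ) ≤ ((⌊h * X⌋₊ + 1 : ℕ) : ℝ) := by exact_mod_cast hcard
      _ = (⌊h * X⌋₊ : ℝ) + 1 := by push_cast; ring
      _ ≤ h * X + 1 := by linarith [Nat.floor_le (mul_nonneg hh hX)]

end Pool.Agent.Lib.MP_d57abb_nt.MS
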