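import Mathlib
import Pool.Agent.Lib.MP_d57abb_nt.MS.Gd

/-!
# JOB Fact: factorization of the approximate sum

Write `A = wd θ`, `A' = wd (θ + l h)` (both subsets of `VS`: `mem_wn`; `VS = VV ((S Y)²)`).  Every `v ∈ A` has `rr v ∈ Icc 1 R` (`rr_facts`) and `cls W v ∈ cs` (`Int.emod_nonneg`, `Int.emod_lt_of_pos`), the same for `A'`.  Group the double sum over `A × A'` by the values `(r, c)` of `v` and `(r', c')` of `w`
(`Finset.sum_fiberwise_of_maps_to` twice): `∑_{(v,w)} Kt θ l (v, w) = ∑_{r, c} ∑_{r', c'} [P/2 < D r r' l ≤ P ∧ chi W c c'] (g θ r r'/Y²) U θ r c · U (θ + l h) r' c'` (`U θ r c = ∑_{v ∈ A, rr v = r, cls v = c} aa z v`).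
If `A` is empty everything is `0`; otherwise `-1/10 ≤ θ ≤ 2` (`th_range`) and `|g| ≤ 2 B` (`g_le`), so the norm is `≤ (2 B/Y²) ∑_{r,c} ∑_{r',c'} ‖U θ r c‖ ‖U (θ + l h) r' c'‖ ≤ (B/Y²) ∑ ∑ (‖U θ r c‖² + ‖U (θ + l h) r' c'‖²)
= (B/Y²) (R W²) (Vt θ + Vt (θ + l h))` (the number of `(r, c)` is `R W²`: `Nat.card_Icc`, `Int.card_Ico`).
-/

open Finset

namespace Pool.Agent.Lib.MP_d57abb_nt.MS

open Pool.Agent.Lib.MP_d57abb_nt Pool.Agent.Lib.MP_d57abb_nt.TA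

private theorem Fact_mem (d : Dt) (θ : ℝ) (v : ℤ × ℤ) (hv : v ∈ d.wd θ) :
    (d.rr v, cls d.W v) ∈ (Icc 1 d.R) ×ˢ d.cs := by
  have hVS : v ∈ d.VS := by
    unfold Dt.wd at hv
    rw [mem_wn] at hv
    exact hv.1
  obtain ⟨_, h1, h2, _⟩ := rr_facts d v hVS
  have hW : (0 : ℤ) < (d.W : ℤ) := by exact_mod_cast d.W0
  rw [Finset.mem_product, Finset.mem_Icc]
  refine ⟨⟨h1, h2⟩, ?_⟩
  unfold Dt.cs cls
  rw [Finset.mem_product, Finset.mem_Ico, Finset.mem_Ico]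
  exact ⟨⟨Int.emod_nonneg _ hW.ne', Int.emod_lt_of_pos _ hW⟩, ⟨Int.emod_nonneg _ hW.ne', Int.emod_lt_of_pos _ hW⟩⟩

open Classical in
private noncomputable def Fact_c (d : Dt) (θ : ℝ) (l : ℕ) (i i' : ℕ × (ℤ × ℤ)) : ℂ :=
  if ((d.P : ℝ) / 2 < d.D i.1 i'.1 l ∧ d.D i.1 i'.1 l ≤ d.P) ∧ chi d.W i.2 i'.2 then
    ((d.g θ i.1 i'.1 / d.Y ^ 2 : ℝ) : ℂ) else 0

private theorem Fact_Kt (d : Dt) (θ : ℝ) (l : ℕ) (v w : ℤ × ℤ) :
    d.Kt θ l (v, w) = Fact_c d θ l (d.rr v, cls d.W v) (d.rr w, cls d.W w) * aa d.z v * aa d.z w := by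
  classical
  unfold Dt.Kt Fact_c
  by_cases h : ((d.P : ℝ) / 2 < d.D (d.rr v) (d.rr w) l ∧ d.D (d.rr v) (d.rr w) l ≤ d.P) ∧
      chi d.W (cls d.W v) (cls d.W w)
  · rw [if_pos h, if_pos h]
  · rw [if_neg h, if_neg h, zero_mul, zero_mul]

private theorem Fact_cle (d : Dt) (θ : ℝ) (h1 : -(1 / 10) ≤ θ) (h2 : θ ≤ 2) (l : ℕ) (i i' : ℕ × (ℤ × ℤ)) :
    ‖Fact_c d θ l i i'‖ ≤ 2 * d.B / d.Y ^ 2 := by
  classical
  have hY := d.Y_pos
  have hB := d.B1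
  unfold Fact_c
  by_cases h : ((d.P : ℝ) / 2 < d.D i.1 i'.1 l ∧ d.D i.1 i'.1 l ≤ d.P) ∧ chi d.W i.2 i'.2
  · rw [if_pos h, Complex.norm_real, Real.norm_eq_abs, abs_div, abs_of_pos (by positivity : 0 < d.Y ^ 2)]
    exact div_le_div_of_nonneg_right (g_le d θ h1 h2 _ _) (by positivity)
  · rw [if_neg h, norm_zero]
    positivity

private theorem Fact_fib (d : Dt) (θ : ℝ) (f : ℤ × ℤ → ℂ) :
    ∑ v ∈ d.wd θ, f v = ∑ i ∈ (Icc 1 d.R) ×ˢ d.cs,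
      ∑ v ∈ (d.wd θ).filter (fun v => d.rr v = i.1 ∧ cls d.W v = i.2), f v := by
  classical
  rw [← Finset.sum_fiberwise_of_maps_to (fun v hv => Fact_mem d θ v hv) f]
  apply Finset.sum_congr rfl
  intro i _
  apply Finset.sum_congr _ (fun _ _ => rfl)
  ext v
  rw [Finset.mem_filter, Finset.mem_filter, Prod.ext_iff]

theorem fact_bound (d : Dt) (θ : ℝ) (l : ℕ) :
    ‖∑ x ∈ d.wd θ ×ˢ d.wd (θ + l * d.h), d.Kt θ l x‖ ≤
      d.B * d.R * (d.W : ℝ) ^ 2 / d.Y ^ 2 * (d.Vt θ + d.Vt (θ + l * d.h)) := by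
  have hY := d.Y_pos
  have hB := d.B1
  have hVt : ∀ θ' : ℝ, 0 ≤ d.Vt θ' := by
    intro θ'
    unfold Dt.Vt
    exact Finset.sum_nonneg fun r _ => Finset.sum_nonneg fun c _ => by positivity
  by_cases hA : (d.wd θ).Nonempty
  · obtain ⟨v0, hv0⟩ := hA
    obtain ⟨ht1, ht2⟩ := th_range d θ v0 hv0
    obtain ⟨I, hI⟩ : ∃ I : Finset (ℕ × (ℤ × ℤ)), I = (Icc 1 d.R) ×ˢ d.cs := ⟨_, rfl⟩
    have hsum : ∑ x ∈ d.wd θ ×ˢ d.wd (θ + l * d.h), d.Kt θ l x =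
        ∑ i ∈ I, ∑ i' ∈ I, Fact_c d θ l i i' * d.U θ i.1 i.2 * d.U (θ + l * d.h) i'.1 i'.2 := by
      rw [Finset.sum_product, Fact_fib, ← hI]
      apply Finset.sum_congr rfl
      intro i _
      have h1 : ∀ v ∈ (d.wd θ).filter (fun v => d.rr v = i.1 ∧ cls d.W v = i.2),
          ∑ w ∈ d.wd (θ + l * d.h), d.Kt θ l (v, w) =
          ∑ i' ∈ I, Fact_c d θ l i i' * aa d.z v * d.U (θ + l * d.h) i'.1 i'.2 := by
        intro v hv
        rw [Finset.mem_filter] at hv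
        have hvi : (d.rr v, cls d.W v) = i := Prod.ext hv.2.1 hv.2.2
        rw [Fact_fib, ← hI]
        apply Finset.sum_congr rfl
        intro i' _
        unfold Dt.U
        rw [Finset.mul_sum]
        apply Finset.sum_congr rfl
        intro w hw
        rw [Finset.mem_filter] at hw
        have hwi : (d.rr w, cls d.W w) = i' := Prod.ext hw.2.1 hw.2.2
        rw [Fact_Kt, hvi, hwi]
      rw [Finset.sum_congr rfl h1, Finset.sum_comm]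
      apply Finset.sum_congr rfl
      intro i' _
      rw [← Finset.sum_mul, ← Finset.mul_sum]
      rfl
    rw [hsum]
    have hcard : (I.card : ℝ) = d.R * (d.W : ℝ) ^ 2 := by
      rw [hI, Finset.card_product, Nat.card_Icc]
      unfold Dt.cs
      rw [Finset.card_product, Int.card_Ico]
      have : ((d.W : ℤ) - 0).toNat = d.W := by omega
      rw [this]
      push_cast
      ring
    have hVt1 : ∀ θ' : ℝ, ∑ i ∈ I, ‖d.U θ' i.1 i.2‖ ^ 2 = d.Vt θ' := by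
      intro θ'
      rw [hI, Finset.sum_product]
      rfl
    calc ‖∑ i ∈ I, ∑ i' ∈ I, Fact_c d θ l i i' * d.U θ i.1 i.2 * d.U (θ + l * d.h) i'.1 i'.2‖
        ≤ ∑ i ∈ I, ∑ i' ∈ I, ‖Fact_c d θ l i i' * d.U θ i.1 i.2 * d.U (θ + l * d.h) i'.1 i'.2‖ :=
          (norm_sum_le _ _).trans (Finset.sum_le_sum fun i _ => norm_sum_le _ _)
      _ ≤ ∑ i ∈ I, ∑ i' ∈ I, (d.B / d.Y ^ 2) * (‖d.U θ i.1 i.2‖ ^ 2 + ‖d.U (θ + l * d.h) i'.1 i'.2‖ ^ 2) := by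
          apply Finset.sum_le_sum
          intro i _
          apply Finset.sum_le_sum
          intro i' _
          rw [norm_mul, norm_mul]
          have h1 := Fact_cle d θ ht1 ht2 l i i'
          have h2 := norm_nonneg (d.U θ i.1 i.2)
          have h3 := norm_nonneg (d.U (θ + l * d.h) i'.1 i'.2)
          have h4 : 2 * (‖d.U θ i.1 i.2‖ * ‖d.U (θ + l * d.h) i'.1 i'.2‖) ≤
              ‖d.U θ i.1 i.2‖ ^ 2 + ‖d.U (θ + l * d.h) i'.1 i'.2‖ ^ 2 := by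
            nlinarith [sq_nonneg (‖d.U θ i.1 i.2‖ - ‖d.U (θ + l * d.h) i'.1 i'.2‖)]
          calc ‖Fact_c d θ l i i'‖ * ‖d.U θ i.1 i.2‖ * ‖d.U (θ + l * d.h) i'.1 i'.2‖
              = ‖Fact_c d θ l i i'‖ * (‖d.U θ i.1 i.2‖ * ‖d.U (θ + l * d.h) i'.1 i'.2‖) := by ring
            _ ≤ (2 * d.B / d.Y ^ 2) * (‖d.U θ i.1 i.2‖ * ‖d.U (θ + l * d.h) i'.1 i'.2‖) :=
              mul_le_mul_of_nonneg_right h1 (mul_nonneg h2 h3)
            _ = (d.B / d.Y ^ 2) * (2 * (‖d.U θ i.1 i.2‖ * ‖d.U (θ + l * d.h) i'.1 i'.2‖)) := by ring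
            _ ≤ _ := mul_le_mul_of_nonneg_left h4 (by positivity)
      _ = d.B * d.R * (d.W : ℝ) ^ 2 / d.Y ^ 2 * (d.Vt θ + d.Vt (θ + l * d.h)) := by
          rw [← hVt1 θ, ← hVt1 (θ + l * d.h)]
          simp only [← Finset.mul_sum, Finset.sum_add_distrib, Finset.sum_const, nsmul_eq_mul]
          rw [hcard]
          ring
  · rw [Finset.not_nonempty_iff_eq_empty] at hA
    rw [hA, Finset.empty_product, Finset.sum_empty, norm_zero]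
    exact mul_nonneg (by positivity) (add_nonneg (hVt _) (hVt _))

end Pool.Agent.Lib.MP_d57abb_nt.MS
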