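import Mathlib
import Pool.Agent.Lib.MP_d57abb_nt.MS.Pw
import Pool.Agent.Lib.MP_d57abb_nt.MS.Fact

/-!
# JOB Phi: the sum over one window

Fix `θ` and `v ∈ wd θ`.  `far`: if `w ∈ VS` and `K (v, w) ≠ 0` then `w ∈ wd (θ + l h)` for exactly one `l < Lm`: `dt v w > 0`, so `δ = an w - an v > 0` (`dt_exp`: the sign of `dt` is the sign of `δ`), so `an w > an v ≥ θ`; take `l = ⌊(an w - θ)/h⌋₊`, so
`θ + l h ≤ an w < θ + (l+1) h`.  `G (v,w) ≠ 0` gives `ll v/Y ≥ 1/2`, `ll w/Y ≥ 2^(-k-1)` (`wS`) and `ll = √nm · kap (an) ≤ √nm` (`ll_kap`, `kap_vec_le`), so `s = √(nm v)/Y ≥ 1/2`, `s' ≥ 2^(-k-1)`, and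
`P ≥ dt = (Y²/√5) s s' (e^(δ/2) - e^(-δ/2)) ≥ (Y²/√5) 2^(-k-2) δ` (`e^x - e^(-x) ≥ 2 x`), so `δ ≤ √5 2^(k+2) P/Y² = √5 2^(k+2) b h ≤ 2^(k+4) b h`, and `l ≤ (an w - θ)/h < δ/h + 1 ≤ 2^(k+4) b + 1 < Lm`.
Hence `∑_{x ∈ wd θ × VS} K x = ∑_{l < Lm} ∑_{x ∈ wd θ × wd (θ + l h)} K x` (the windows `wd (θ + l h)`, `l < Lm`, are disjoint subsets of `VS`: `Finset.sum_biUnion`, or for fixed `v` write `∑_w K (v,w) = ∑_l ∑_{w ∈ wd (θ + l h)} K (v, w)` with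
`Finset.sum_comm` and indicator functions).  By `pw`: `‖∑ K - ∑ Kt‖ ≤ ∑_l ∑_{wd θ × wd (θ + l h)} er x ≤ ∑_{wd θ × VS} er x` (disjointness, `er_nonneg`), and `‖∑_l ∑ Kt‖ ≤ ∑_l` of `fact_bound`.
-/

open Finset

namespace Pool.Agent.Lib.MP_d57abb_nt.MS

open Pool.Agent.Lib.MP_d57abb_nt Pool.Agent.Lib.MP_d57abb_nt.TA

private theorem Phi_disj (d : Dt) (θ : ℝ) {l l' : ℕ} {w : ℤ × ℤ} (h1 : w ∈ d.wd (θ + l * d.h))
    (h2 : w ∈ d.wd (θ + l' * d.h)) : l = l' := by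
  have hh := d.h_pos
  obtain ⟨-, a1, a2⟩ := mem_wn.1 h1
  obtain ⟨-, b1, b2⟩ := mem_wn.1 h2
  have c1 : (l : ℝ) * d.h < ((l' : ℝ) + 1) * d.h := by linarith
  have c2 : (l' : ℝ) * d.h < ((l : ℝ) + 1) * d.h := by linarith
  have c3 : (l : ℝ) < (l' : ℝ) + 1 := lt_of_mul_lt_mul_right c1 hh.le
  have c4 : (l' : ℝ) < (l : ℝ) + 1 := lt_of_mul_lt_mul_right c2 hh.le
  have c5 : l < l' + 1 := by exact_mod_cast c3
  have c6 : l' < l + 1 := by exact_mod_cast c4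
  omega

private theorem Phi_far (d : Dt) (θ : ℝ) (v w : ℤ × ℤ) (hv : v ∈ d.wd θ) (hw : w ∈ d.VS)
    (hK : d.K (v, w) ≠ 0) : ∃ l < d.Lm, w ∈ d.wd (θ + l * d.h) := by
  classical
  have hh := d.h_pos
  have hY := d.Y_pos
  have hcond : 0 < dt v w ∧ (dt v w).toNat ∈ KT.NN d.W d.P := by
    by_contra h1
    exact hK (if_neg h1)
  have hG : d.G (v, w) ≠ 0 := by
    intro h0
    apply hK
    show (if 0 < dt v w ∧ (dt v w).toNat ∈ KT.NN d.W d.P then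
      ((d.G (v, w) / d.Y ^ 2 : ℝ) : ℂ) * aa d.z v * aa d.z w else 0) = 0
    rw [h0, if_pos hcond, zero_div, Complex.ofReal_zero, zero_mul, zero_mul]
  have hW : d.Wh (ll v / d.Y) (ll w / d.Y) ≠ 0 := by
    intro h0
    apply hG
    show d.gm (mu1 v) * d.Wh (ll v / d.Y) (ll w / d.Y) = 0
    rw [h0, mul_zero]
  obtain ⟨⟨s1, -⟩, ⟨s3, -⟩⟩ := d.wS _ _ hW
  obtain ⟨hvV, hv1, hv2⟩ := mem_wn.1 hv
  obtain ⟨⟨⟨v1, -⟩, ⟨v2, -⟩⟩, -, -⟩ := mem_VV.1 hvV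
  obtain ⟨⟨⟨w1, -⟩, ⟨w2, -⟩⟩, -, -⟩ := mem_VV.1 hw
  have hPle : (dt v w : ℝ) ≤ d.P := by
    have h1 := (KT.mem_NN.1 hcond.2).1.2
    have h2 : dt v w ≤ (d.P : ℤ) := by omega
    exact_mod_cast h2
  have hdt0 : (0 : ℝ) < (dt v w : ℝ) := by exact_mod_cast hcond.1
  have hdt := dt_exp v w v1 v2 w1 w2
  set δ := an w - an v with hδ
  have hsv : d.Y / 2 ≤ √(nm v : ℝ) := by
    have h1 := ll_kap v v1 v2
    have h2 := kap_vec_le v v1 v2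
    rw [le_div_iff₀ hY] at s1
    have h3 : (0 : ℝ) ≤ √(nm v : ℝ) := Real.sqrt_nonneg _
    nlinarith
  have hsw : d.Y / 2 ^ (d.k + 1) ≤ √(nm w : ℝ) := by
    have h1 := ll_kap w w1 w2
    have h2 := kap_vec_le w w1 w2
    rw [le_div_iff₀ hY] at s3
    have h3 : (0 : ℝ) ≤ √(nm w : ℝ) := Real.sqrt_nonneg _
    have h4 : 1 / 2 ^ (d.k + 1) * d.Y = d.Y / 2 ^ (d.k + 1) := by ring
    rw [h4] at s3
    nlinarith
  have h5 : (0 : ℝ) < √5 := by positivity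
  have hnv : 0 < √(nm v : ℝ) := lt_of_lt_of_le (by positivity) hsv
  have hnw : 0 < √(nm w : ℝ) := lt_of_lt_of_le (by positivity) hsw
  have hδ0 : 0 < δ := by
    by_contra hle
    have h6 : δ / 2 ≤ -(δ / 2) := by linarith
    have h7 := Real.exp_le_exp.2 h6
    have h8 : √(nm v : ℝ) * √(nm w : ℝ) * (Real.exp (δ / 2) - Real.exp (-(δ / 2))) / √5 ≤ 0 := by
      apply div_nonpos_of_nonpos_of_nonneg _ h5.le
      exact mul_nonpos_of_nonneg_of_nonpos (by positivity) (by linarith)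
    linarith
  have hsinh : δ ≤ Real.exp (δ / 2) - Real.exp (-(δ / 2)) := by
    have h6 := Real.self_le_sinh_iff.2 (by positivity : 0 ≤ δ / 2)
    rw [Real.sinh_eq] at h6
    linarith
  have hδle : δ ≤ 2 ^ (d.k + 4) * d.b * d.h := by
    have h6 : d.Y / 2 * (d.Y / 2 ^ (d.k + 1)) * δ ≤ d.P * √5 := by
      have h7 : √(nm v : ℝ) * √(nm w : ℝ) * (Real.exp (δ / 2) - Real.exp (-(δ / 2))) =
          (dt v w : ℝ) * √5 := by
        rw [hdt]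
        field_simp
      calc d.Y / 2 * (d.Y / 2 ^ (d.k + 1)) * δ ≤
          √(nm v : ℝ) * √(nm w : ℝ) * (Real.exp (δ / 2) - Real.exp (-(δ / 2))) := by
            gcongr
        _ = (dt v w : ℝ) * √5 := h7
        _ ≤ d.P * √5 := mul_le_mul_of_nonneg_right hPle h5.le
    have hb : (0 : ℝ) < d.b := by exact_mod_cast d.b_pos
    have h8 : (d.P : ℝ) = d.b * d.h * d.Y ^ 2 := by
      unfold Dt.h
      field_simp
    have h9 : d.Y / 2 * (d.Y / 2 ^ (d.k + 1)) * δ = d.Y ^ 2 * (δ / 2 ^ (d.k + 2)) := by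
      rw [pow_succ (2 : ℝ) (d.k + 1)]
      field_simp
    rw [h9, h8] at h6
    have h10 : d.Y ^ 2 * (δ / 2 ^ (d.k + 2)) ≤ d.Y ^ 2 * (d.b * d.h * √5) := by
      linarith
    have h11 : δ / 2 ^ (d.k + 2) ≤ d.b * d.h * √5 := le_of_mul_le_mul_left h10 (by positivity)
    rw [div_le_iff₀ (by positivity)] at h11
    have h12 : √5 ≤ 4 := by linarith [sqrt5_hi]
    calc δ ≤ d.b * d.h * √5 * 2 ^ (d.k + 2) := h11
      _ ≤ d.b * d.h * 4 * 2 ^ (d.k + 2) := by gcongr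
      _ = 2 ^ (d.k + 4) * d.b * d.h := by
          rw [pow_add, pow_add]
          ring
  have hx0 : 0 ≤ (an w - θ) / d.h := by
    apply div_nonneg _ hh.le
    linarith
  refine ⟨⌊(an w - θ) / d.h⌋₊, ?_, ?_⟩
  · have h6 : (an w - θ) / d.h < 2 ^ (d.k + 4) * d.b + 1 := by
      rw [div_lt_iff₀ hh]
      linarith
    have h7 : (⌊(an w - θ) / d.h⌋₊ : ℝ) ≤ (an w - θ) / d.h := Nat.floor_le hx0
    have h8 : (⌊(an w - θ) / d.h⌋₊ : ℝ) < ((2 ^ (d.k + 4) * d.b + 1 : ℕ) : ℝ) := by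
      push_cast
      linarith
    have h9 : ⌊(an w - θ) / d.h⌋₊ < 2 ^ (d.k + 4) * d.b + 1 := by exact_mod_cast h8
    have h10 : 2 ^ (d.k + 4) * d.b ≤ 2 ^ (d.k + 5) * d.b :=
      Nat.mul_le_mul_right _ (Nat.pow_le_pow_right (by norm_num) (by omega))
    unfold Dt.Lm
    omega
  · refine mem_wn.2 ⟨hw, ?_, ?_⟩
    · have h7 : (⌊(an w - θ) / d.h⌋₊ : ℝ) ≤ (an w - θ) / d.h := Nat.floor_le hx0
      rw [le_div_iff₀ hh] at h7
      linarith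
    · have h7 : (an w - θ) / d.h < (⌊(an w - θ) / d.h⌋₊ : ℝ) + 1 := Nat.lt_floor_add_one _
      rw [div_lt_iff₀ hh] at h7
      linarith

private theorem Phi_sub (d : Dt) (θ : ℝ) : d.wd θ ⊆ d.VS := fun _ hv => (mem_wn.1 hv).1

theorem phi_bound (d : Dt) (θ : ℝ) :
    ‖∑ x ∈ d.wd θ ×ˢ d.VS, d.K x‖ ≤ ∑ x ∈ d.wd θ ×ˢ d.VS, d.er x +
      d.B * d.R * (d.W : ℝ) ^ 2 / d.Y ^ 2 * ∑ l ∈ range d.Lm, (d.Vt θ + d.Vt (θ + l * d.h)) := by
  classical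
  have hdisj : Set.PairwiseDisjoint (↑(range d.Lm)) (fun l : ℕ => d.wd (θ + l * d.h)) := by
    intro l _ l' _ hne
    rw [Function.onFun, Finset.disjoint_left]
    intro w h1 h2
    exact hne (Phi_disj d θ h1 h2)
  set U := (range d.Lm).biUnion (fun l : ℕ => d.wd (θ + l * d.h)) with hU
  have hUV : U ⊆ d.VS := by
    rw [hU, Finset.biUnion_subset]
    intro l _
    exact Phi_sub d _
  have hK : ∑ x ∈ d.wd θ ×ˢ d.VS, d.K x =
      ∑ l ∈ range d.Lm, ∑ x ∈ d.wd θ ×ˢ d.wd (θ + l * d.h), d.K x := by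
    rw [Finset.sum_product]
    have h1 : ∀ l ∈ range d.Lm, ∑ x ∈ d.wd θ ×ˢ d.wd (θ + l * d.h), d.K x =
        ∑ v ∈ d.wd θ, ∑ w ∈ d.wd (θ + l * d.h), d.K (v, w) := fun l _ => Finset.sum_product _ _ _
    rw [Finset.sum_congr rfl h1, Finset.sum_comm (s := range d.Lm)]
    refine Finset.sum_congr rfl fun v hv => ?_
    rw [← Finset.sum_biUnion hdisj, ← hU]
    symm
    apply Finset.sum_subset hUV
    intro w hw hwU
    by_contra h2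
    obtain ⟨l, hl, hlw⟩ := Phi_far d θ v w hv hw h2
    exact hwU (Finset.mem_biUnion.2 ⟨l, Finset.mem_range.2 hl, hlw⟩)
  have hE : ∑ l ∈ range d.Lm, ∑ x ∈ d.wd θ ×ˢ d.wd (θ + l * d.h), d.er x ≤
      ∑ x ∈ d.wd θ ×ˢ d.VS, d.er x := by
    rw [Finset.sum_product]
    have h1 : ∀ l ∈ range d.Lm, ∑ x ∈ d.wd θ ×ˢ d.wd (θ + l * d.h), d.er x =
        ∑ v ∈ d.wd θ, ∑ w ∈ d.wd (θ + l * d.h), d.er (v, w) := fun l _ => Finset.sum_product _ _ _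
    rw [Finset.sum_congr rfl h1, Finset.sum_comm]
    refine Finset.sum_le_sum fun v _ => ?_
    rw [← Finset.sum_biUnion hdisj, ← hU]
    exact Finset.sum_le_sum_of_subset_of_nonneg hUV fun w _ _ => er_nonneg d (v, w)
  have hmain : ∀ l ∈ range d.Lm, ‖∑ x ∈ d.wd θ ×ˢ d.wd (θ + l * d.h), d.K x‖ ≤
      ∑ x ∈ d.wd θ ×ˢ d.wd (θ + l * d.h), d.er x +
        d.B * d.R * (d.W : ℝ) ^ 2 / d.Y ^ 2 * (d.Vt θ + d.Vt (θ + l * d.h)) := by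
    intro l hl
    have h1 : ∑ x ∈ d.wd θ ×ˢ d.wd (θ + l * d.h), d.K x =
        ∑ x ∈ d.wd θ ×ˢ d.wd (θ + l * d.h), (d.K x - d.Kt θ l x) +
          ∑ x ∈ d.wd θ ×ˢ d.wd (θ + l * d.h), d.Kt θ l x := by
      rw [← Finset.sum_add_distrib]
      exact Finset.sum_congr rfl fun x _ => (sub_add_cancel _ _).symm
    rw [h1]
    refine (norm_add_le _ _).trans (add_le_add ?_ (fact_bound d θ l))
    refine (norm_sum_le _ _).trans (Finset.sum_le_sum fun x hx => ?_)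
    rw [Finset.mem_product] at hx
    exact pw d θ l (Finset.mem_range.1 hl) x.1 x.2 hx.1 hx.2
  rw [hK]
  refine (norm_sum_le _ _).trans ((Finset.sum_le_sum hmain).trans ?_)
  rw [Finset.sum_add_distrib, ← Finset.mul_sum]
  exact add_le_add hE le_rfl

end Pool.Agent.Lib.MP_d57abb_nt.MS
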