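import Mathlib
import Pool.Agent.Lib.MP_d57abb_nt.MS.Gd
import Pool.Agent.Lib.MP_d57abb_nt.TA.Line

/-!
# JOB Red: from `Bm` to the sum over `VS × VS`

`d.Y = 2^j`, `γ ≥ k + 5`.  `∑_{m ∈ NN} Bm mu1 (Wps ψ) z γ j m = ∑_{m ∈ NN} ∑_{x ∈ pp2 (2^(γ+j)) m} (G x/Y²) aa aa` (`4^j = (2^j)² = Y²`) is the sum of `(G x/Y²) aa aa` over the pairs `x` of primitive vectors of the box `[0, 2^(γ+j)]²` with `dt x.1 x.2 = m ∈ NN` (for different `m` disjoint; elements of `NN` are positive).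
`∑_{x ∈ VS × VS} K x` is the sum of the same function over the `x ∈ VS × VS` with `0 < dt`, `dt.toNat ∈ NN`.  Both are equal to the sum over the `x` with `G x ≠ 0` in the respective set, and these `x` are the same: let `G (v, w) ≠ 0`, `v, w` primitive with coordinates `≥ 0`: `ll v/Y ∈ [1/2, 2]`, `ll w/Y ∈ [2^(-k-1), 2^(k+1)]`
(`wS`), `Y ≥ 2^(5k+30)` (`Dt.Y_ge`), so `ll v, ll w ≥ 2`; then `v.1 ≥ 1` (if `v.1 = 0`, `v` primitive gives `v = (0, 1)`, `ll v = 1`), the same for `w`; `nm v = (ll v)² + v.1 v.2 ≤ (5/4) (ll v)² ≤ 5 Y² ≤ (S Y)²`, `nm w ≤ (5/4) (2^(k+1) Y)² ≤ (2^(k+2) Y)² = (S Y)²`, coordinates `≤ ll ≤ nm ≤ (S Y)²`, so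
`v, w ∈ VS`; conversely the coordinates of `v, w` are `≤ ll ≤ 2^(k+1) Y = 2^(k+1+j) ≤ 2^(γ+j)`.
-/

open Finset

namespace Pool.Agent.Lib.MP_d57abb_nt.MS

open Pool.Agent.Lib.MP_d57abb_nt Pool.Agent.Lib.MP_d57abb_nt.TA

private theorem Red_VS (d : Dt) {v : ℤ × ℤ} (h1 : 0 ≤ v.1) (h2 : 0 ≤ v.2) (hc : IsCoprime v.1 v.2)
    (hl : 2 ≤ ll v) (hl' : (ll v : ℝ) ≤ 2 ^ (d.k + 1) * d.Y) : v ∈ d.VS := by
  have hY := d.Y_pos
  have hv1 : 1 ≤ v.1 := by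
    by_contra hlt
    have h0 : v.1 = 0 := by omega
    rw [h0, isCoprime_zero_left] at hc
    have h3 : v.2 = 1 := by
      rcases Int.isUnit_iff.1 hc with h4 | h4
      · exact h4
      · omega
    unfold ll at hl
    omega
  have hnm : (nm v : ℝ) ≤ (d.S * d.Y) ^ 2 := by
    have h3 : 4 * nm v ≤ 5 * (ll v) ^ 2 := by
      unfold nm ll
      nlinarith [sq_nonneg (v.1 - v.2)]
    have h4 : 4 * (nm v : ℝ) ≤ 5 * (ll v : ℝ) ^ 2 := by exact_mod_cast h3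
    have h5 : (0 : ℝ) ≤ (ll v : ℝ) := by exact_mod_cast (by omega : 0 ≤ ll v)
    have h6 : (ll v : ℝ) ^ 2 ≤ (2 ^ (d.k + 1) * d.Y) ^ 2 := pow_le_pow_left₀ h5 hl' 2
    have h7 : (d.S * d.Y) ^ 2 = 4 * (2 ^ (d.k + 1) * d.Y) ^ 2 := by
      unfold Dt.S
      rw [pow_succ (2 : ℝ) (d.k + 1)]
      ring
    rw [h7]
    nlinarith [sq_nonneg (2 ^ (d.k + 1) * d.Y)]
  have ha : v.1 ≤ nm v := by
    unfold nm
    nlinarith [mul_nonneg h1 h2]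
  have hb : v.2 ≤ nm v := by
    unfold nm
    nlinarith [mul_nonneg h1 h2]
  unfold Dt.VS
  rw [mem_VV]
  refine ⟨⟨⟨hv1, ?_⟩, ⟨h2, ?_⟩⟩, hc, hnm⟩
  · rw [Int.le_floor]
    refine le_trans ?_ hnm
    exact_mod_cast ha
  · rw [Int.le_floor]
    refine le_trans ?_ hnm
    exact_mod_cast hb

private theorem Red_box (d : Dt) {γ j : ℕ} (hγ : d.k + 5 ≤ γ) (hj : d.Y = 2 ^ j) {v : ℤ × ℤ}
    (h1 : 0 ≤ v.1) (h2 : 0 ≤ v.2) (hl' : (ll v : ℝ) ≤ 2 ^ (d.k + 1) * d.Y) :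
    v ∈ Bx (2 ^ (γ + j)) := by
  have h3 : (ll v : ℝ) ≤ ((2 ^ (γ + j) : ℕ) : ℝ) := by
    refine hl'.trans ?_
    rw [hj, ← pow_add]
    push_cast
    exact pow_le_pow_right₀ (by norm_num) (by omega)
  have h4 : ll v ≤ ((2 ^ (γ + j) : ℕ) : ℤ) := by exact_mod_cast h3
  unfold ll at h4
  unfold Bx
  rw [Finset.mem_product, Finset.mem_Icc, Finset.mem_Icc]
  refine ⟨⟨h1, ?_⟩, ⟨h2, ?_⟩⟩
  · omega
  · omega

private theorem Red_supp (d : Dt) {v w : ℤ × ℤ} (hG : d.G (v, w) ≠ 0) :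
    (2 ≤ ll v ∧ (ll v : ℝ) ≤ 2 ^ (d.k + 1) * d.Y) ∧ (2 ≤ ll w ∧ (ll w : ℝ) ≤ 2 ^ (d.k + 1) * d.Y) := by
  have hY := d.Y_pos
  have hYge := d.Y_ge
  have hW : d.Wh (ll v / d.Y) (ll w / d.Y) ≠ 0 := by
    intro h0
    apply hG
    show d.gm (mu1 v) * d.Wh (ll v / d.Y) (ll w / d.Y) = 0
    rw [h0, mul_zero]
  obtain ⟨⟨s1, s2⟩, ⟨s3, s4⟩⟩ := d.wS _ _ hW
  rw [le_div_iff₀ hY] at s1 s3
  rw [div_le_iff₀ hY] at s2 s4
  have hp1 : (1 : ℝ) ≤ 2 ^ (4 * d.k + 28) := one_le_pow₀ (by norm_num)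
  have e1 : (2 : ℝ) ^ (5 * d.k + 30) = 2 ^ (d.k + 1) * 2 * 2 ^ (4 * d.k + 28) := by
    rw [← pow_succ, ← pow_add]
    congr 1
    omega
  have hk1 : (2 : ℝ) ≤ 2 ^ (d.k + 1) := by
    calc (2 : ℝ) = 2 ^ 1 := (pow_one _).symm
      _ ≤ 2 ^ (d.k + 1) := pow_le_pow_right₀ (by norm_num) (by omega)
  have hY2 : 2 ^ (d.k + 1) * 2 ≤ d.Y := by
    rw [e1] at hYge
    nlinarith
  refine ⟨⟨?_, ?_⟩, ⟨?_, ?_⟩⟩
  · have h1 : (2 : ℝ) ≤ (ll v : ℝ) := by nlinarith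
    exact_mod_cast h1
  · nlinarith
  · have h2 : (1 / 2 ^ (d.k + 1) : ℝ) * (2 ^ (d.k + 1) * 2) ≤ 1 / 2 ^ (d.k + 1) * d.Y :=
      mul_le_mul_of_nonneg_left hY2 (by positivity)
    have h3 : (1 / 2 ^ (d.k + 1) : ℝ) * (2 ^ (d.k + 1) * 2) = 2 := by
      field_simp
    have h1 : (2 : ℝ) ≤ (ll w : ℝ) := by linarith
    exact_mod_cast h1
  · exact s4

theorem red (d : Dt) (γ j : ℕ) (hγ : d.k + 5 ≤ γ) (hj : d.Y = 2 ^ j) :
    ∑ m ∈ KT.NN d.W d.P, Bm (fun v => d.gm (mu1 v)) d.Wh d.z γ j m = ∑ x ∈ d.VS ×ˢ d.VS, d.K x := by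
  classical
  set N := 2 ^ (γ + j) with hN
  set f : (ℤ × ℤ) × (ℤ × ℤ) → ℂ := fun x =>
    ((d.G x / d.Y ^ 2 : ℝ) : ℂ) * aa d.z x.1 * aa d.z x.2 with hf
  have hf0 : ∀ x, d.G x = 0 → f x = 0 := by
    intro x hx
    rw [hf]
    simp only
    rw [hx, zero_div, Complex.ofReal_zero, zero_mul, zero_mul]
  set T := (Bx N ×ˢ Bx N).filter (fun x => (0 < dt x.1 x.2 ∧ (dt x.1 x.2).toNat ∈ KT.NN d.W d.P) ∧
    IsCoprime x.1.1 x.1.2 ∧ IsCoprime x.2.1 x.2.2) with hT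
  set T' := (d.VS ×ˢ d.VS).filter
    (fun x => 0 < dt x.1 x.2 ∧ (dt x.1 x.2).toNat ∈ KT.NN d.W d.P) with hT'
  have hL : ∑ m ∈ KT.NN d.W d.P, Bm (fun v => d.gm (mu1 v)) d.Wh d.z γ j m = ∑ x ∈ T, f x := by
    have hmaps : ∀ x ∈ T, (dt x.1 x.2).toNat ∈ KT.NN d.W d.P := fun x hx =>
      (Finset.mem_filter.1 hx).2.1.2
    rw [← Finset.sum_fiberwise_of_maps_to hmaps f]
    refine Finset.sum_congr rfl fun m hm => ?_
    have hm0 : 0 < m := by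
      have := (KT.mem_NN.1 hm).1.1
      omega
    have hset : T.filter (fun x => (dt x.1 x.2).toNat = m) = pp2 N m := by
      ext x
      rw [Finset.mem_filter, hT, Finset.mem_filter]
      unfold pp2
      rw [Finset.mem_filter]
      constructor
      · rintro ⟨⟨a1, ⟨a2, a3⟩, a4⟩, a5⟩
        exact ⟨a1, by omega, a4⟩
      · rintro ⟨a1, a2, a4⟩
        have a5 : (dt x.1 x.2).toNat = m := by omega
        refine ⟨⟨a1, ⟨by omega, ?_⟩, a4⟩, a5⟩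
        rw [a5]
        exact hm
    rw [hset]
    unfold Bm
    refine Finset.sum_congr rfl fun x _ => ?_
    rw [hf]
    simp only
    unfold Dt.G
    rw [hj]
    have h4 : ((2 : ℝ) ^ j) ^ 2 = 4 ^ j := by
      rw [← pow_mul, mul_comm, pow_mul]
      norm_num
    rw [h4]
  have hR : ∑ x ∈ d.VS ×ˢ d.VS, d.K x = ∑ x ∈ T', f x := by
    rw [hT', Finset.sum_filter]
    refine Finset.sum_congr rfl fun x _ => ?_
    unfold Dt.K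
    rw [hf]
  rw [hL, hR]
  have h1 : ∑ x ∈ T, f x = ∑ x ∈ T ∩ T', f x := by
    symm
    apply Finset.sum_subset Finset.inter_subset_left
    intro x hx hx'
    by_contra hne
    have hG : d.G x ≠ 0 := fun h0 => hne (hf0 x h0)
    obtain ⟨⟨b1, b2⟩, ⟨b3, b4⟩⟩ := Red_supp d (v := x.1) (w := x.2) hG
    obtain ⟨a1, a2, a3, a4⟩ := Finset.mem_filter.1 hx
    rw [Finset.mem_product] at a1
    obtain ⟨c1, c2⟩ := a1
    unfold Bx at c1 c2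
    rw [Finset.mem_product, Finset.mem_Icc, Finset.mem_Icc] at c1 c2
    refine hx' (Finset.mem_inter.2 ⟨hx, Finset.mem_filter.2 ⟨Finset.mem_product.2 ⟨?_, ?_⟩, a2⟩⟩)
    · exact Red_VS d c1.1.1 c1.2.1 a3 b1 b2
    · exact Red_VS d c2.1.1 c2.2.1 a4 b3 b4
  have h2 : ∑ x ∈ T', f x = ∑ x ∈ T ∩ T', f x := by
    symm
    apply Finset.sum_subset Finset.inter_subset_right
    intro x hx hx'
    by_contra hne
    have hG : d.G x ≠ 0 := fun h0 => hne (hf0 x h0)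
    obtain ⟨⟨b1, b2⟩, ⟨b3, b4⟩⟩ := Red_supp d (v := x.1) (w := x.2) hG
    obtain ⟨a1, a2⟩ := Finset.mem_filter.1 hx
    rw [Finset.mem_product] at a1
    obtain ⟨c1, c2⟩ := a1
    unfold Dt.VS at c1 c2
    rw [mem_VV] at c1 c2
    refine hx' (Finset.mem_inter.2 ⟨Finset.mem_filter.2 ⟨Finset.mem_product.2 ⟨?_, ?_⟩, a2,
      c1.2.1, c2.2.1⟩, hx⟩)
    · exact Red_box d hγ hj (by omega) c1.1.2.1 b2
    · exact Red_box d hγ hj (by omega) c2.1.2.1 b4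
  rw [h1, h2]

end Pool.Agent.Lib.MP_d57abb_nt.MS
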